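import Mathlib

namespace Pool.Agent.H.MP_5a7c5b_co

def Wt (M o : ℤ → Prop) (K R i l r : ℤ) : Prop :=
  i - R ≤ l ∧ l < r ∧ r ≤ i + R ∧ M l ∧ M r ∧ (∀ p, l < p → p < r → ¬M p) ∧ ¬(o l ↔ o r) ∧
    l + r - 2 * i ≤ 2 * K ∧ 2 * i - (l + r) ≤ 2 * K

def Nr (M : ℤ → Prop) (D i p : ℤ) : Prop := 
  (p - i).natAbs ≤ D ∧ M p ∧ ∀ q, (q - i).natAbs < (p - i).natAbs → ¬M q

def Sep (M o : ℤ → Prop) (K a b : ℤ) : Prop :=
  ∀ p q, a ≤ p → p ≤ b → a ≤ q → q ≤ b → p - q ≤ 4 * K → q - p ≤ 4 * K → M p → M q → (o p ↔ o q)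

theorem lemA {M o : ℤ → Prop} {K D a b i j p q : ℤ} (hs : Sep M o K a b) (ha : a ≤ i - (D + K))
    (hb : i + (D + K) ≤ b) (h1 : i - j ≤ K) (h2 : j - i ≤ K) (hp : Nr M D i p) (hq : Nr M D j q)
    (ho : ¬(o p ↔ o q)) : ∃ l r, Wt M o K (D + K) i l r := by
  obtain ⟨p1, p2, p3⟩ := hp
  obtain ⟨q1, q2, q3⟩ := hq
  have a1 := not_lt.1 fun h => p3 q h q2
  have a2 := not_lt.1 fun h => q3 p h p2
  have a3 : ¬(p - q ≤ 4 * K ∧ q - p ≤ 4 * K) := fun h => ho (hs p q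
    (by omega) (by omega) (by omega) (by omega) h.1 h.2 p2 q2)
  have k : ∀ m, M m → ¬(p < m ∧ m < q) ∧ ¬(q < m ∧ m < p) := fun m hm => by
    have b1 := not_lt.1 fun h => p3 m h hm
    have b2 := not_lt.1 fun h => q3 m h hm
    omega
  rcases lt_or_ge p q with h | h
  · exact ⟨p, q, by omega, h, by omega, p2, q2, fun m m1 m2 hm => (k m hm).1 ⟨m1, m2⟩, ho,
      by omega, by omega⟩
  · exact ⟨q, p, by omega, by omega, by omega, q2, p2, fun m m1 m2 hm => (k m hm).2 ⟨m1, m2⟩,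
      fun h => ho h.symm, by omega, by omega⟩

theorem lemB {M o : ℤ → Prop} {K R a b i j l r l' r' : ℤ} (hs : Sep M o K a b)
    (ha : a ≤ i - (R + K)) (hb : i + (R + K) ≤ b) (h1 : i - j ≤ K) (h2 : j - i ≤ K)
    (h : Wt M o K R i l r) (h' : Wt M o K R j l' r') : l + r = l' + r' := by
  obtain ⟨a1, a2, a3, a4, a5, a6, a7, a8, a9⟩ := h
  obtain ⟨b1, b2, b3, b4, b5, b6, b7, b8, b9⟩ := h'
  have c1 : ¬r - l ≤ 4 * K := fun h => a7 (hs l r (by omega) (by omega) (by omega) (by omega)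
    (by omega) h a4 a5)
  have c2 : ¬r' - l' ≤ 4 * K := fun h => b7 (hs l' r' (by omega) (by omega) (by omega) (by omega)
    (by omega) h b4 b5)
  have d1 : ¬(l < l' ∧ l' < r) := fun h => a6 _ h.1 h.2 b4
  have d2 : ¬(l < r' ∧ r' < r) := fun h => a6 _ h.1 h.2 b5
  have d3 : ¬(l' < l ∧ l < r') := fun h => b6 _ h.1 h.2 a4
  have d4 : ¬(l' < r ∧ r < r') := fun h => b6 _ h.1 h.2 a5
  omega

theorem nr_ex {M : ℤ → Prop} {D i : ℤ} (h : ∃ p, (p - i).natAbs ≤ D ∧ M p) : ∃ p, Nr M D i p := by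
  obtain ⟨p, hp, hm⟩ := WellFounded.has_min (InvImage.wf (fun p : ℤ => (p - i).natAbs) wellFounded_lt)
    {p | (p - i).natAbs ≤ D ∧ M p} h
  exact ⟨p, hp.1, hp.2, fun q hq hq' => hm q ⟨by have := hp.1; omega, hq'⟩ hq⟩

theorem core {M o be M' o' be' : ℤ → Prop} {K D a b c i i' : ℤ} (hs : Sep M o K a b)
    (ha : a ≤ i - (D + K + K)) (hb : i + (D + K + K) ≤ b) (h1 : i - (c - i') ≤ K)
    (h2 : c - i' - i ≤ K) (hM : ∀ p, a ≤ p → p ≤ b → (M' (c - p) ↔ M p))
    (ho : ∀ p, a ≤ p → p ≤ b → (o' (c - p) ↔ ¬o p))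
    (hbe : ∀ t, 2 * a ≤ t → t ≤ 2 * b → (be' (2 * c - t) ↔ ¬be t))
    (sy : ∃ p, (p - i).natAbs ≤ D ∧ M p) (sy' : ∃ p, (p - i').natAbs ≤ D ∧ M' p)
    (e1 : (∃ l r, Wt M o K (D + K) i l r) ↔ ∃ l r, Wt M' o' K (D + K) i' l r)
    (e2 : (∃ l r, Wt M o K (D + K) i l r ∧ be (l + r)) ↔
      ∃ l r, Wt M' o' K (D + K) i' l r ∧ be' (l + r))
    (e3 : (∃ p, Nr M D i p ∧ o p) ↔ ∃ p, Nr M' D i' p ∧ o' p) : False := by
  have hM' : ∀ p, a ≤ c - p → c - p ≤ b → (M' p ↔ M (c - p)) := fun p h h' => by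
    simpa using hM _ h h'
  have ho' : ∀ p, a ≤ c - p → c - p ≤ b → (o' p ↔ ¬o (c - p)) := fun p h h' => by
    simpa using ho _ h h'
  by_cases hT : ∃ l r, Wt M o K (D + K) i l r
  · have k : ∀ l r l' r', Wt M o K (D + K) i l r → Wt M' o' K (D + K) i' l' r' →
        (be' (l' + r') ↔ ¬be (l + r)) := by
      rintro l r l' r' h ⟨b1, b2, b3, b4, b5, b6, b7, b8, b9⟩
      have := lemB hs ha hb h1 h2 h (l' := c - r') (r' := c - l') ⟨by omega, by omega, by omega,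
        (hM' _ (by omega) (by omega)).1 b5, (hM' _ (by omega) (by omega)).1 b4,
        fun p p1 p2 hp => b6 (c - p) (by omega) (by omega) ((hM _ (by omega) (by omega)).2 hp),
        by
          rw [ho' _ (by omega) (by omega), ho' _ (by omega) (by omega)] at b7
          tauto, by omega, by omega⟩
      obtain ⟨a1, a2, a3, -⟩ := h
      rw [← hbe _ (by omega) (by omega), this]
      congr! 1
      ring
    obtain ⟨l', r', h'⟩ := e1.1 hT
    obtain ⟨l, r, h⟩ := hT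
    by_cases hb : be (l + r)
    · obtain ⟨l', r', h', hb'⟩ := e2.1 ⟨l, r, h, hb⟩
      exact (k _ _ _ _ h h').1 hb' hb
    · obtain ⟨l, r, h, hb'⟩ := e2.2 ⟨l', r', h', (k _ _ _ _ h h').2 hb⟩
      exact (k _ _ _ _ h h').1 ((k _ _ _ _ ‹_› h').2 hb) hb'
  · have k : ∀ p q, Nr M D i p → Nr M' D i' q → (o' q ↔ ¬o p) := by
      rintro p q h ⟨b1, b2, b3⟩
      by_contra hn
      refine hT (lemA hs (by omega) (by omega) h1 h2 h (q := c - q) ⟨by omega,
        (hM' _ (by omega) (by omega)).1 b2, fun m m1 hm => b3 (c - m) (by omega)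
          ((hM _ (by omega) (by omega)).2 hm)⟩ ?_)
      rw [ho' _ (by omega) (by omega)] at hn
      tauto
    obtain ⟨p, h⟩ := nr_ex sy
    obtain ⟨q, h'⟩ := nr_ex sy'
    by_cases hb : o p
    · obtain ⟨q, h', hb'⟩ := e3.1 ⟨p, h, hb⟩
      exact (k _ _ h h').1 hb' hb
    · have := (k _ _ h h').2 hb
      obtain ⟨p, h, hb'⟩ := e3.2 ⟨q, h', this⟩
      exact (k _ _ h h').1 this hb'

abbrev O : Type := Option (Fin 2 × Bool)

def iv : O → O := Option.map fun a => (a.1, !a.2)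

theorem iv_iv : ∀ a, iv (iv a) = a := by decide

noncomputable def en {X : Type} [Fintype X] (x : X) : ℕ := Fintype.equivFin X x

theorem en_inj {X : Type} [Fintype X] {x y : X} (h : en x = en y) : x = y :=
  (Fintype.equivFin X).injective (Fin.ext h)

abbrev Wn (N : ℕ) : Type := Fin (2 * N + 1) → O

def win (N : ℕ) (w : ℤ → O) (p : ℤ) : Wn N := fun i => w (p - N + (i : ℕ))

def rv {N : ℕ} (C : Wn N) : Wn N := fun i => iv (C i.rev)

theorem rv_rv {N : ℕ} (C : Wn N) : rv (rv C) = C := by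
  ext1 i
  simp [rv, iv_iv]

noncomputable def ka (N : ℕ) (w : ℤ → O) (p : ℤ) : ℕ :=
  min (en (win N w p)) (en (rv (win N w p)))

def ori (N : ℕ) (w : ℤ → O) (p : ℤ) : Prop := en (win N w p) < en (rv (win N w p))

def Mk (N : ℕ) (w : ℤ → O) (p : ℤ) : Prop := ∀ q, (q - p).natAbs ≤ N → ka N w p ≤ ka N w q

def be (w : ℤ → O) (t : ℤ) : Prop :=
  en (w (t / 2), w ((t + 1) / 2)) < en (iv (w ((t + 1) / 2)), iv (w (t / 2)))

def Good (w : ℤ → O) (a b : ℤ) : Prop :=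
  ∀ m m', a ≤ m → m ≤ m' → m' ≤ m + 1 → m' ≤ b → w m' ≠ iv (w m)

def Refl (w w' : ℤ → O) (c a b : ℤ) : Prop := ∀ p, a ≤ p → p ≤ b → w' (c - p) = iv (w p)

theorem syn (N : ℕ) (w : ℤ → O) (n : ℕ) :
    ∀ p, ka N w p ≤ n → ∃ q, (q - p).natAbs ≤ N * n ∧ Mk N w q := by
  induction n with
  | zero => exact fun p h => ⟨p, by simp, fun q _ => h.trans (Nat.zero_le _)⟩
  | succ n ih =>
    intro p h
    by_cases hp : Mk N w p
    · exact ⟨p, by simp, hp⟩
    · simp only [Mk, not_forall, not_le] at hp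
      obtain ⟨q, h1, h2⟩ := hp
      obtain ⟨r, h3, h4⟩ := ih q (by omega)
      refine ⟨r, ?_, h4⟩
      rw [Nat.mul_succ]
      omega

theorem syn' (N : ℕ) (w : ℤ → O) (p : ℤ) :
    ∃ q, ((q - p).natAbs : ℤ) ≤ (N * Fintype.card (Wn N) : ℕ) ∧ Mk N w q :=
  (syn N w _ p ((min_le_left _ _).trans (Fin.is_lt _).le)).imp fun _ h => ⟨by exact_mod_cast h.1, h.2⟩

theorem win_refl {N : ℕ} {w w' : ℤ → O} {c a b p : ℤ} (h : Refl w w' c a b) (h1 : a ≤ p - N)
    (h2 : p + N ≤ b) : win N w' (c - p) = rv (win N w p) := by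
  ext1 i
  have := i.2
  simp only [win, rv, Fin.val_rev]
  rw [← h _ (by omega) (by omega)]
  congr 1
  omega

theorem nr {N : ℕ} {w : ℤ → O} {a b p q : ℤ} (h : Good w a b) (h1 : a ≤ p - N) (h2 : p + N ≤ b)
    (h3 : p - q ≤ N) (h4 : q - p ≤ N) : win N w q ≠ rv (win N w p) := fun e => by
  have := congrFun e ⟨((p - q + 1) / 2 + N).toNat, by omega⟩
  simp only [win, rv, Fin.val_rev] at this
  exact h _ _ (by omega) (by omega) (by omega) (by omega) this

def DD (K : ℕ) : ℕ := 4 * K * Fintype.card (Wn (4 * K))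

open Classical in
noncomputable def col (K : ℕ) (w : ℤ → O) (i : ℤ) : Prop × Prop × Prop :=
  (∃ l r, Wt (Mk (4 * K) w) (ori (4 * K) w) K (DD K + K) i l r,
    ∃ l r, Wt (Mk (4 * K) w) (ori (4 * K) w) K (DD K + K) i l r ∧ be w (l + r),
    ∃ p, Nr (Mk (4 * K) w) (DD K) i p ∧ ori (4 * K) w p)

theorem col_ne {K : ℕ} {w w' : ℤ → O} {c a b i i' : ℤ} (hg : Good w a b) (hr : Refl w w' c a b)
    (ha : a + 10 * K + DD K ≤ i) (hb : i + 10 * K + DD K ≤ b) (h1 : i - (c - i') ≤ K)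
    (h2 : c - i' - i ≤ K) : col K w i ≠ col K w' i' := fun e => by
  simp only [col, Prod.mk.injEq, eq_iff_iff] at e
  have k : ∀ p, a ≤ p - (4 * K : ℕ) → p + (4 * K : ℕ) ≤ b →
      ka (4 * K) w' (c - p) = ka (4 * K) w p := fun p p1 p2 => by
    simp only [ka, win_refl hr p1 p2, rv_rv, min_comm]
  refine core (a := a + 8 * K) (b := b - 8 * K) (D := DD K) ?_ (by omega) (by omega) h1 h2 ?_ ?_ ?_
    (syn' _ _ _) (syn' _ _ _) e.1 e.2.1 e.2.2
  · intro p q p1 p2 q1 q2 h3 h4 hp hq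
    have b1 := le_antisymm (hp q (by omega)) (hq p (by omega))
    have b2 := nr (N := 4 * K) hg (p := p) (q := q) (by omega) (by omega) (by omega) (by omega)
    have b3 := nr (N := 4 * K) hg (p := q) (q := p) (by omega) (by omega) (by omega) (by omega)
    have b4 := nr (N := 4 * K) hg (p := p) (q := p) (by omega) (by omega) (by omega) (by omega)
    have b5 := nr (N := 4 * K) hg (p := q) (q := q) (by omega) (by omega) (by omega) (by omega)
    have := mt en_inj b2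
    have := mt en_inj b3
    have := mt en_inj b4
    have := mt en_inj b5
    simp only [ka] at b1
    simp only [ori]
    omega
  · intro p p1 p2
    simp only [Mk, k p (by omega) (by omega)]
    constructor
    · intro h q hq
      rw [← k q (by omega) (by omega)]
      exact h _ (by omega)
    · intro h q hq
      have := k (c - q) (by omega) (by omega)
      rw [sub_sub_cancel] at this
      rw [this]
      exact h _ (by omega)
  · intro p p1 p2
    have := mt en_inj (nr (N := 4 * K) hg (p := p) (q := p) (by omega) (by omega) (by omega)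
      (by omega))
    simp only [ori, win_refl hr (N := 4 * K) (p := p) (by omega) (by omega), rv_rv]
    omega
  · intro t t1 t2
    have b1 := hr (t / 2) (by omega) (by omega)
    have b2 := hr ((t + 1) / 2) (by omega) (by omega)
    have b3 := hg (t / 2) ((t + 1) / 2) (by omega) (by omega) (by omega) (by omega)
    have := mt (en_inj (x := (w (t / 2), w ((t + 1) / 2)))
      (y := (iv (w ((t + 1) / 2)), iv (w (t / 2))))) fun h => b3 (congrArg Prod.snd h)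
    simp only [be, show (2 * c - t) / 2 = c - (t + 1) / 2 by omega,
      show (2 * c - t + 1) / 2 = c - t / 2 by omega, b1, b2, iv_iv]
    omega

end Pool.Agent.H.MP_5a7c5b_co
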