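import Pool.Agent.H.MP_5a7c5b_co.A

namespace Pool.Agent.H.MP_5a7c5b_co

open FreeGroup

abbrev F : Type := FreeGroup (Fin 2)

def W (x : F) (p : ℤ) : O := if 0 ≤ p then x.toWord[p.toNat]? else none

theorem good (x : F) : Good (W x) 0 (x.norm - 1) := by
  intro m m' h1 h2 h3 h4
  have hl : x.norm = x.toWord.length := rfl
  simp only [W, if_pos h1, if_pos (h1.trans h2)]
  rw [List.getElem?_eq_getElem (by omega), List.getElem?_eq_getElem (by omega)]
  rcases h2.eq_or_lt with rfl | h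
  · simp [iv, Prod.ext_iff]
  · have := List.isChain_iff_getElem.1 (isReduced_toWord (x := x)) m.toNat (by omega)
    simp only [show m'.toNat = m.toNat + 1 by omega]
    intro e
    simp only [iv, Option.map_some, Option.some.injEq, Prod.ext_iff] at e
    have := this e.1.symm
    rw [e.2] at this
    simp at this

theorem W_inv (x : F) (p : ℤ) : W x⁻¹ p = iv (W x (x.norm - 1 - p)) := by
  have hl : x.norm = x.toWord.length := rfl
  simp only [W, toWord_inv, invRev]
  split_ifs with h1 h2 h2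
  · rw [List.getElem?_reverse (by simp; omega), List.getElem?_map, List.length_map]
    simp only [iv]
    congr 2
    omega
  · rw [List.getElem?_eq_none (by simp; omega)]
    rfl
  · rw [List.getElem?_eq_none (by omega)]
    rfl
  · rfl

theorem letter (a : Fin 2 × Bool) (x : F) : ∃ j : ℤ, (j = 1 ∨ j = -1) ∧
    ((mk [a] * x).norm : ℤ) = x.norm + j ∧ ∀ p, 1 ≤ p → W (mk [a] * x) (p + j) = W x p := by
  have h : (mk [a] * x).toWord = a :: x.toWord ∨ ∃ b, x.toWord = b :: (mk [a] * x).toWord := by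
    have : (mk [a] * x).toWord = reduce (a :: x.toWord) := by
      conv_lhs => rw [← mk_toWord (x := x), mul_mk, toWord_mk]
      rfl
    rw [this, reduce.cons, reduce_toWord]
    rcases x.toWord with _ | ⟨b, t⟩
    · exact Or.inl rfl
    · simp only
      split_ifs
      exacts [Or.inr ⟨_, rfl⟩, Or.inl rfl]
  rcases h with h | ⟨b, h⟩
  · refine ⟨1, Or.inl rfl, by simp [FreeGroup.norm, h], fun p hp => ?_⟩
    simp only [W, h]
    rw [if_pos (by omega), if_pos (by omega), show (p + 1).toNat = p.toNat + 1 by omega,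
      List.getElem?_cons_succ]
  · refine ⟨-1, Or.inr rfl, ?_, fun p hp => ?_⟩
    · simp only [FreeGroup.norm]
      rw [h]
      simp
    · simp only [W]
      rw [if_pos (by omega), if_pos (by omega), h, show p.toNat = (p + -1).toNat + 1 by omega,
        List.getElem?_cons_succ]

theorem left0 (L : List (Fin 2 × Bool)) (x : F) : ∃ j : ℤ, j.natAbs ≤ L.length ∧
    ((mk L * x).norm : ℤ) = x.norm + j ∧ ∀ p : ℤ, L.length ≤ p → W (mk L * x) (p + j) = W x p := by
  induction L with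
  | nil => exact ⟨0, by simp, by simp [← one_eq_mk], fun p _ => by simp [← one_eq_mk]⟩
  | cons a L ih =>
    obtain ⟨j, h1, h2, h3⟩ := ih
    obtain ⟨e, h4, h5, h6⟩ := letter a (mk L * x)
    rw [← mul_assoc, mul_mk, List.singleton_append] at h5 h6
    simp only [List.length_cons]
    refine ⟨j + e, by omega, by omega, fun p hp => ?_⟩
    rw [← add_assoc, h6 _ (by omega), h3 _ (by omega)]

theorem left (g x : F) : ∃ j : ℤ, j.natAbs ≤ g.norm ∧
    ((g * x).norm : ℤ) = x.norm + j ∧ ∀ p : ℤ, g.norm ≤ p → W (g * x) (p + j) = W x p := by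
  have := left0 g.toWord x
  rw [mk_toWord] at this
  exact this

theorem refl (g x : F) : ∃ j e : ℤ, j.natAbs ≤ g.norm ∧ e.natAbs ≤ g.norm ∧
    ((g * x⁻¹ * g).norm : ℤ) = x.norm + j + e ∧
    Refl (W x) (W (g * x⁻¹ * g)) (x.norm - 1 + e) g.norm (x.norm - 1 - g.norm) := by
  obtain ⟨j, h1, h2, h3⟩ := left g⁻¹ x
  obtain ⟨e, h4, h5, h6⟩ := left g (g⁻¹ * x)⁻¹
  rw [norm_inv_eq] at h1 h3 h5
  rw [show g * (g⁻¹ * x)⁻¹ = g * x⁻¹ * g by group] at h5 h6
  refine ⟨j, e, h1, h4, by omega, fun p p1 p2 => ?_⟩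
  rw [← h3 p p1, show x.norm - 1 + e - p = x.norm - 1 - p + e by ring, h6 _ (by omega), W_inv]
  congr 2
  omega

def T : ℕ → ℕ
  | 0 => 0
  | m + 1 => T m + (24 * (m + 1) + 2 * DD (m + 1) + 4)

theorem T_mono : StrictMono T := strictMono_nat_of_lt_succ fun m => by
  simp only [T]
  omega

theorem T_ex (n : ℕ) : ∃ m, n < T (m + 1) := ⟨n, T_mono.le_apply⟩

def sc (n : ℕ) : ℕ := Nat.find (T_ex n)

theorem sc1 (n : ℕ) : n < T (sc n + 1) := Nat.find_spec (T_ex n)

theorem sc2 (n : ℕ) : T (sc n) ≤ n := by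
  rcases h : sc n with _ | m
  · exact Nat.zero_le _
  · exact not_lt.1 (Nat.find_min (T_ex n) (show m < sc n by omega))

theorem sc3 {n k : ℕ} (h : T k ≤ n) : k ≤ sc n :=
  Nat.lt_succ_iff.1 (T_mono.lt_iff_lt.1 (h.trans_lt (sc1 n)))

theorem sc4 {n n' k : ℕ} (h : k ≤ sc n) (h' : n' ≤ n + 2 * k) : sc n' < sc n + 2 := by
  by_contra hn
  have a1 := T_mono.monotone (not_lt.1 hn)
  have a2 := sc1 n
  have a3 := sc2 n'
  rw [T] at a1
  omega

noncomputable def chi (x : F) : (Prop × Prop × Prop) × Prop :=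
  (col (sc x.norm) (W x) (x.norm / 2), sc x.norm % 2 = 0)

theorem chi_ne (g x : F) (h : T (g.norm + 2) + 2 * g.norm ≤ x.norm) :
    chi x ≠ chi (g * x⁻¹ * g) := fun e => by
  obtain ⟨j, i, h1, h2, h3, h4⟩ := refl g x
  simp only [chi, Prod.mk.injEq, eq_iff_iff] at e
  have a1 : g.norm + 2 ≤ sc x.norm := sc3 (by omega)
  have a2 : g.norm + 2 ≤ sc (g * x⁻¹ * g).norm := sc3 (by omega)
  have a3 := sc4 (n := x.norm) (n' := (g * x⁻¹ * g).norm) (k := g.norm) (by omega) (by omega)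
  have a4 := sc4 (n' := x.norm) (n := (g * x⁻¹ * g).norm) (k := g.norm) (by omega) (by omega)
  have a5 : sc (g * x⁻¹ * g).norm = sc x.norm := by omega
  have a6 := sc2 x.norm
  rw [a5] at e
  obtain ⟨m, hm⟩ : ∃ m, sc x.norm = m + 1 := ⟨sc x.norm - 1, by omega⟩
  rw [hm] at e a6 a1
  rw [T] at a6
  exact col_ne (fun m m' b1 b2 b3 b4 => good x m m' (by omega) b2 b3 (by omega)) h4
    (by omega) (by omega) (by omega) (by omega) e.1

theorem main : ∃ k : ℕ, ∃ c : F → Fin k, ∀ A : Set F, A.Infinite →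
    (∃ g : F, A = (fun a => g * a⁻¹ * g) '' A) → ¬∃ i : Fin k, ∀ a ∈ A, c a = i := by
  classical
  refine ⟨_, fun x => Fintype.equivFin _ (chi x), ?_⟩
  rintro A hA ⟨g, hg⟩ ⟨i, hi⟩
  have := (List.finite_length_lt (Fin 2 × Bool) (T (g.norm + 2) + 2 * g.norm)).preimage
    (toWord_injective.injOn)
  obtain ⟨x, h1, h2⟩ := (hA.sdiff this).nonempty
  refine chi_ne g x (not_lt.1 h2) ((Fintype.equivFin _).injective ((hi x h1).trans (hi _ ?_).symm))
  rw [hg]
  exact ⟨x, h1, rfl⟩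

end Pool.Agent.H.MP_5a7c5b_co
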